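import Mathlib

/-! Character sums over a finite field of characteristic two, for the lower bound
on the exponent of popular differences for squares. -/

namespace Pool.H850Sq

set_option linter.unusedSectionVars false

open Finset

/-- The sign `(-1)^t`. -/
def sg (t : ZMod 2) : ℤ := if t = 0 then 1 else -1

lemma sg_add (a b : ZMod 2) : sg (a + b) = sg a * sg b := by
  revert a b; decide

lemma sg_zero : sg 0 = 1 := by decide

lemma sg_sum {ι : Type*} (s : Finset ι) (f : ι → ZMod 2) :
    sg (∑ i ∈ s, f i) = ∏ i ∈ s, sg (f i) := by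
  classical
  induction s using Finset.induction_on with
  | empty => simp [sg_zero]
  | insert a s ha ih => rw [Finset.sum_insert ha, Finset.prod_insert ha, sg_add, ih]

lemma sg_abs (t : ZMod 2) : |sg t| = 1 := by
  revert t; decide

lemma sum_sg_mul (t : ZMod 2) : ∑ w : ZMod 2, sg (w * t) = if t = 0 then 2 else 0 := by
  revert t; decide

variable {F : Type*} [Field F] [Fintype F] [Algebra (ZMod 2) F]

/-- The absolute trace. -/
noncomputable def lam : F →ₗ[ZMod 2] ZMod 2 := Algebra.trace (ZMod 2) F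

omit [Fintype F] in
lemma char_two : CharP F 2 := by
  have h := (algebraMap (ZMod 2) F).injective
  exact (charP_of_injective_algebraMap h 2)

lemma lam_sq (x : F) : lam (x ^ 2) = lam x := by
  have hcp : CharP F 2 := char_two
  have h1 := FiniteField.algebraMap_trace_eq_sum_pow (ZMod 2) F x
  have h2 := FiniteField.algebraMap_trace_eq_sum_pow (ZMod 2) F (x ^ 2)
  apply (algebraMap (ZMod 2) F).injective
  unfold lam
  rw [h1, h2]
  have hc : Nat.card (ZMod 2) = 2 := by simp
  rw [hc]
  set m := Module.finrank (ZMod 2) F with hm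
  have hfin : Module.Finite (ZMod 2) F := Module.Finite.of_finite
  have hcard : Fintype.card F = 2 ^ m := by
    have := Module.card_eq_pow_finrank (K := ZMod 2) (V := F)
    simpa using this
  have h3 : ∀ i, (x ^ 2) ^ 2 ^ i = x ^ 2 ^ (i + 1) := by
    intro i
    rw [← pow_mul, pow_succ, mul_comm]
  simp_rw [h3]
  have h4 : x ^ 2 ^ m = x := by rw [← hcard]; exact FiniteField.pow_card x
  have h5 := Finset.sum_range_succ (fun i => x ^ 2 ^ i) m
  have h6 := Finset.sum_range_succ' (fun i => x ^ 2 ^ i) m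
  rw [h5] at h6
  simp only [pow_zero, pow_one] at h6
  rw [h4] at h6
  exact (add_right_cancel h6).symm

lemma exists_lam_ne : ∃ z : F, lam z ≠ 0 := by
  by_contra hcon
  push Not at hcon
  have hsurj := Algebra.trace_surjective (ZMod 2) F
  obtain ⟨w, hw⟩ := hsurj 1
  have := hcon w
  unfold lam at this
  rw [hw] at this
  exact one_ne_zero this

/-- The additive character. -/
noncomputable def psi (x : F) : ℤ := sg (lam x)

lemma psi_add (x y : F) : psi (x + y) = psi x * psi y := by
  unfold psi; rw [map_add, sg_add]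

lemma psi_zero : psi (0 : F) = 1 := by
  unfold psi; rw [map_zero, sg_zero]

lemma psi_sq (x : F) : psi (x ^ 2) = psi x := by
  unfold psi; rw [lam_sq]

lemma psi_abs (x : F) : |psi x| = 1 := sg_abs _

lemma sum_psi : ∑ x : F, psi x = 0 := by
  obtain ⟨z, hz⟩ := exists_lam_ne (F := F)
  have h1 : psi z = -1 := by
    unfold psi sg
    rw [if_neg hz]
  have h2 : ∑ x : F, psi x = ∑ x : F, psi (z + x) :=
    (Fintype.sum_equiv (Equiv.addLeft z) (fun x => psi (z + x)) psi (fun x => rfl)).symm
  simp_rw [psi_add, h1] at h2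
  rw [← Finset.mul_sum] at h2
  linarith

open Classical in
lemma sum_psi_mul (c : F) : ∑ x : F, psi (c * x) = if c = 0 then (Fintype.card F : ℤ) else 0 := by
  split_ifs with h
  · subst h
    simp [psi_zero]
  · rw [← sum_psi (F := F)]
    exact Fintype.sum_equiv (Equiv.mulLeft₀ c h) _ _ (fun x => rfl)

open Classical in
lemma sum_psi_quad (c b : F) :
    ∑ x : F, psi (c * x ^ 2 + b * x) = if c + b ^ 2 = 0 then (Fintype.card F : ℤ) else 0 := by
  have hcp : CharP F 2 := char_two
  have h1 : ∀ x : F, psi (c * x ^ 2 + b * x) = psi ((c + b ^ 2) * x ^ 2) := by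
    intro x
    rw [psi_add, ← psi_sq (b * x), ← psi_add]
    congr 1
    ring
  simp_rw [h1]
  rw [← sum_psi_mul]
  have hb : Function.Bijective (fun x : F => x ^ 2) := by
    have : Function.Injective (fun x : F => x ^ 2) := by
      intro x y hxy
      simp only at hxy
      have : (x + y) ^ 2 = 0 := by
        rw [CharTwo.add_sq, hxy]
        exact CharTwo.add_self_eq_zero _
      have h3 : x + y = 0 := by
        exact pow_eq_zero_iff (two_ne_zero) |>.mp this
      exact CharTwo.add_eq_zero.mp h3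
    exact Finite.injective_iff_bijective.mp this
  exact Fintype.sum_bijective _ hb _ _ (fun x => rfl)

/-- The cubic phase. -/
def Phi (a b e f a' b' c' d' : F) (x y : F) : F :=
  a * x ^ 3 + b * y ^ 3 + e * (x * y ^ 2) + f * (y * x ^ 2)
    + (a' * x ^ 2 + b' * x) + (c' * y ^ 2 + d' * y)

omit [Fintype F] in
lemma Phi_shift (a b e f a' b' c' d' : F) (x y h l : F) :
    Phi a b e f a' b' c' d' x y + Phi a b e f a' b' c' d' (x + h) (y + l)
      = Phi a b e f a' b' c' d' h l
        + (((a * h + f * l) * x ^ 2 + (a * h ^ 2 + e * l ^ 2) * x)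
        + ((b * l + e * h) * y ^ 2 + (b * l ^ 2 + f * h ^ 2) * y)) := by
  have hcp : CharP F 2 := char_two
  have h2 : (2 : F) = 0 := CharTwo.two_eq_zero
  unfold Phi
  have key : ∀ u v w : F, u = v + 2 * w → u = v := by
    intro u v w huv; rw [huv, h2]; ring
  apply key _ _ (a * x ^ 3 + b * y ^ 3 + e * x * y ^ 2 + f * y * x ^ 2 + a' * x ^ 2 + b' * x
    + c' * y ^ 2 + d' * y + a * x ^ 2 * h + a * x * h ^ 2 + b * y ^ 2 * l + b * y * l ^ 2
    + e * x * y * l + e * h * y * l + f * y * x * h + f * l * x * h + a' * x * h + c' * y * l)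
  ring

/-- The double sum. -/
noncomputable def SS (a b e f a' b' c' d' : F) : ℤ :=
  ∑ x : F, ∑ y : F, psi (Phi a b e f a' b' c' d' x y)

open Classical in
lemma SS_sq (a b e f a' b' c' d' : F) :
    SS a b e f a' b' c' d' ^ 2 ≤
      ((Finset.univ.filter fun p : F × F =>
        (a * p.1 + f * p.2) + (a * p.1 ^ 2 + e * p.2 ^ 2) ^ 2 = 0 ∧
        (b * p.2 + e * p.1) + (b * p.2 ^ 2 + f * p.1 ^ 2) ^ 2 = 0).card : ℤ)
        * (Fintype.card F : ℤ) ^ 2 := by
  set P := Phi a b e f a' b' c' d' with hP
  have h0 : SS a b e f a' b' c' d' ^ 2 =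
      ∑ x : F, ∑ y : F, ∑ h : F, ∑ l : F, psi (P x y) * psi (P (x + h) (y + l)) := by
    have h1 : ∀ x y : F, SS a b e f a' b' c' d' = ∑ h : F, ∑ l : F, psi (P (x + h) (y + l)) := by
      intro x y
      unfold SS
      rw [← hP]
      rw [← Fintype.sum_equiv (Equiv.addLeft x)
        (fun h => ∑ y : F, psi (P (x + h) y)) (fun x => ∑ y : F, psi (P x y)) (fun h => rfl)]
      refine Finset.sum_congr rfl fun h _ => ?_
      exact (Fintype.sum_equiv (Equiv.addLeft y) (fun l => psi (P (x + h) (y + l)))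
        (fun l => psi (P (x + h) l)) (fun l => rfl)).symm
    calc SS a b e f a' b' c' d' ^ 2
        = (∑ x : F, ∑ y : F, psi (P x y)) * SS a b e f a' b' c' d' := by
          rw [sq]; rfl
      _ = ∑ x : F, ∑ y : F, psi (P x y) * SS a b e f a' b' c' d' := by
          rw [Finset.sum_mul]
          refine Finset.sum_congr rfl fun x _ => ?_
          rw [Finset.sum_mul]
      _ = _ := by
          refine Finset.sum_congr rfl fun x _ => Finset.sum_congr rfl fun y _ => ?_
          rw [h1 x y, Finset.mul_sum]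
          refine Finset.sum_congr rfl fun h _ => ?_
          rw [Finset.mul_sum]
  have h2 : ∀ x y h l : F, psi (P x y) * psi (P (x + h) (y + l)) =
      psi (P h l) * (psi ((a * h + f * l) * x ^ 2 + (a * h ^ 2 + e * l ^ 2) * x)
        * psi ((b * l + e * h) * y ^ 2 + (b * l ^ 2 + f * h ^ 2) * y)) := by
    intro x y h l
    rw [← psi_add, hP, Phi_shift, psi_add, psi_add]
  have h3 : SS a b e f a' b' c' d' ^ 2 = ∑ h : F, ∑ l : F, psi (P h l) *
      ((∑ x : F, psi ((a * h + f * l) * x ^ 2 + (a * h ^ 2 + e * l ^ 2) * x))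
        * ∑ y : F, psi ((b * l + e * h) * y ^ 2 + (b * l ^ 2 + f * h ^ 2) * y)) := by
    rw [h0]
    simp_rw [h2]
    have : ∀ G : F → F → F → F → ℤ, ∑ x : F, ∑ y : F, ∑ h : F, ∑ l : F, G x y h l
        = ∑ h : F, ∑ l : F, ∑ x : F, ∑ y : F, G x y h l := by
      intro G
      calc ∑ x : F, ∑ y : F, ∑ h : F, ∑ l : F, G x y h l
          = ∑ x : F, ∑ h : F, ∑ y : F, ∑ l : F, G x y h l := by
            refine Finset.sum_congr rfl fun x _ => Finset.sum_comm
        _ = ∑ h : F, ∑ x : F, ∑ y : F, ∑ l : F, G x y h l := Finset.sum_comm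
        _ = ∑ h : F, ∑ x : F, ∑ l : F, ∑ y : F, G x y h l := by
            refine Finset.sum_congr rfl fun h _ => Finset.sum_congr rfl fun x _ => Finset.sum_comm
        _ = ∑ h : F, ∑ l : F, ∑ x : F, ∑ y : F, G x y h l := by
            refine Finset.sum_congr rfl fun h _ => Finset.sum_comm
    rw [this]
    refine Finset.sum_congr rfl fun h _ => Finset.sum_congr rfl fun l _ => ?_
    rw [Finset.sum_mul_sum, Finset.mul_sum]
    refine Finset.sum_congr rfl fun x _ => ?_
    rw [Finset.mul_sum]
  rw [h3]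
  simp_rw [sum_psi_quad]
  calc _ ≤ ∑ h : F, ∑ l : F, (if (a * h + f * l) + (a * h ^ 2 + e * l ^ 2) ^ 2 = 0 ∧
        (b * l + e * h) + (b * l ^ 2 + f * h ^ 2) ^ 2 = 0 then (Fintype.card F : ℤ) ^ 2 else 0) := by
        refine Finset.sum_le_sum fun h _ => Finset.sum_le_sum fun l _ => ?_
        by_cases c1 : (a * h + f * l) + (a * h ^ 2 + e * l ^ 2) ^ 2 = 0
        · by_cases c2 : (b * l + e * h) + (b * l ^ 2 + f * h ^ 2) ^ 2 = 0
          · rw [if_pos c1, if_pos c2, if_pos ⟨c1, c2⟩]
            have := psi_abs (P h l)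
            have h4 : psi (P h l) ≤ 1 := this ▸ le_abs_self _
            nlinarith [sq_nonneg (Fintype.card F : ℤ)]
          · have hn : ¬ ((a * h + f * l) + (a * h ^ 2 + e * l ^ 2) ^ 2 = 0 ∧
              (b * l + e * h) + (b * l ^ 2 + f * h ^ 2) ^ 2 = 0) := fun hh => c2 hh.2
            rw [if_neg c2, if_neg hn]
            simp
        · have hn : ¬ ((a * h + f * l) + (a * h ^ 2 + e * l ^ 2) ^ 2 = 0 ∧
              (b * l + e * h) + (b * l ^ 2 + f * h ^ 2) ^ 2 = 0) := fun hh => c1 hh.1
          rw [if_neg c1, if_neg hn]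
          simp
    _ = _ := by
        rw [← Finset.sum_product' (s := Finset.univ) (t := Finset.univ)
          (f := fun h l => if (a * h + f * l) + (a * h ^ 2 + e * l ^ 2) ^ 2 = 0 ∧
        (b * l + e * h) + (b * l ^ 2 + f * h ^ 2) ^ 2 = 0 then (Fintype.card F : ℤ) ^ 2 else 0)]
        rw [Finset.univ_product_univ, ← Finset.sum_filter, Finset.sum_const, nsmul_eq_mul]

open Classical in
lemma card_quartic (A B C : F) (hA : A ≠ 0) :
    (Finset.univ.filter fun h : F => A * h ^ 4 + B * h + C = 0).card ≤ 4 := by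
  set p : Polynomial F := Polynomial.C A * Polynomial.X ^ 4 + Polynomial.C B * Polynomial.X
    + Polynomial.C C with hp
  have hdeg : p.natDegree = 4 := by
    rw [hp]
    compute_degree!
  have hp0 : p ≠ 0 := by
    intro h; rw [h] at hdeg; simp at hdeg
  have hsub : (Finset.univ.filter fun h : F => A * h ^ 4 + B * h + C = 0) ⊆ p.roots.toFinset := by
    intro h hh
    rw [Finset.mem_filter] at hh
    rw [Multiset.mem_toFinset, Polynomial.mem_roots hp0, Polynomial.IsRoot, hp]
    simp [hh.2]
  calc _ ≤ p.roots.toFinset.card := Finset.card_le_card hsub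
    _ ≤ Multiset.card p.roots := Multiset.toFinset_card_le _
    _ ≤ p.natDegree := Polynomial.card_roots' p
    _ = 4 := hdeg

open Classical in
lemma card_fiber1 (S : Finset (F × F)) (h : ∀ l : F, (S.filter fun p => p.2 = l).card ≤ 4) :
    S.card ≤ 4 * Fintype.card F := by
  have := Finset.card_eq_sum_card_fiberwise (f := Prod.snd) (s := S) (t := Finset.univ)
    (fun _ _ => Finset.mem_coe.mpr (Finset.mem_univ _))
  rw [this]
  calc _ ≤ ∑ l : F, 4 := Finset.sum_le_sum fun l _ => h l
    _ = 4 * Fintype.card F := by simp [mul_comm]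

open Classical in
lemma card_fiber2 (S : Finset (F × F)) (h : ∀ l : F, (S.filter fun p => p.1 = l).card ≤ 4) :
    S.card ≤ 4 * Fintype.card F := by
  have := Finset.card_eq_sum_card_fiberwise (f := Prod.fst) (s := S) (t := Finset.univ)
    (fun _ _ => Finset.mem_coe.mpr (Finset.mem_univ _))
  rw [this]
  calc _ ≤ ∑ l : F, 4 := Finset.sum_le_sum fun l _ => h l
    _ = 4 * Fintype.card F := by simp [mul_comm]

open Classical in
lemma card_kernel (a b e f : F) (hne : ¬ (a = 0 ∧ b = 0 ∧ e = 0 ∧ f = 0)) :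
    (Finset.univ.filter fun p : F × F =>
        (a * p.1 + f * p.2) + (a * p.1 ^ 2 + e * p.2 ^ 2) ^ 2 = 0 ∧
        (b * p.2 + e * p.1) + (b * p.2 ^ 2 + f * p.1 ^ 2) ^ 2 = 0).card
      ≤ 4 * Fintype.card F := by
  have hcp : CharP F 2 := char_two
  have h2 : (2 : F) = 0 := CharTwo.two_eq_zero
  by_cases ha : a = 0
  · by_cases hf : f = 0
    · by_cases hb : b = 0
      · -- e ≠ 0
        have he : e ≠ 0 := by
          intro he; exact hne ⟨ha, hb, he, hf⟩
        apply card_fiber2
        intro h
        refine le_trans ?_ (card_quartic (e ^ 2) f (a * h + a ^ 2 * h ^ 4) (pow_ne_zero 2 he))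
        apply Finset.card_le_card_of_injOn Prod.snd
        · intro p hp
          simp only [Finset.coe_filter, Finset.mem_filter, Finset.mem_univ, true_and,
            Set.mem_ofPred_eq] at hp ⊢
          obtain ⟨⟨h1, h3⟩, h4⟩ := hp
          rw [← h4, ← h1]
          linear_combination (-(a * e * p.1 ^ 2 * p.2 ^ 2)) * h2
        · intro p hp q hq hpq
          simp only [Finset.coe_filter, Finset.mem_filter, Finset.mem_univ, true_and,
            Set.mem_ofPred_eq] at hp hq
          exact Prod.ext (hp.2.trans hq.2.symm) hpq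
      · apply card_fiber2
        intro h
        refine le_trans ?_ (card_quartic (b ^ 2) b (e * h + f ^ 2 * h ^ 4) (pow_ne_zero 2 hb))
        apply Finset.card_le_card_of_injOn Prod.snd
        · intro p hp
          simp only [Finset.coe_filter, Finset.mem_filter, Finset.mem_univ, true_and,
            Set.mem_ofPred_eq] at hp ⊢
          obtain ⟨⟨h1, h3⟩, h4⟩ := hp
          rw [← h4, ← h3]
          linear_combination (-(b * f * p.1 ^ 2 * p.2 ^ 2)) * h2
        · intro p hp q hq hpq
          simp only [Finset.coe_filter, Finset.mem_filter, Finset.mem_univ, true_and,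
            Set.mem_ofPred_eq] at hp hq
          exact Prod.ext (hp.2.trans hq.2.symm) hpq
    · apply card_fiber1
      intro l
      refine le_trans ?_ (card_quartic (f ^ 2) e (b * l + b ^ 2 * l ^ 4) (pow_ne_zero 2 hf))
      apply Finset.card_le_card_of_injOn Prod.fst
      · intro p hp
        simp only [Finset.coe_filter, Finset.mem_filter, Finset.mem_univ, true_and,
          Set.mem_ofPred_eq] at hp ⊢
        obtain ⟨⟨h1, h3⟩, h4⟩ := hp
        rw [← h4, ← h3]
        linear_combination (-(b * f * p.1 ^ 2 * p.2 ^ 2)) * h2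
      · intro p hp q hq hpq
        simp only [Finset.coe_filter, Finset.mem_filter, Finset.mem_univ, true_and,
          Set.mem_ofPred_eq] at hp hq
        exact Prod.ext hpq (hp.2.trans hq.2.symm)
  · apply card_fiber1
    intro l
    refine le_trans ?_ (card_quartic (a ^ 2) a (f * l + e ^ 2 * l ^ 4) (pow_ne_zero 2 ha))
    apply Finset.card_le_card_of_injOn Prod.fst
    · intro p hp
      simp only [Finset.coe_filter, Finset.mem_filter, Finset.mem_univ, true_and,
        Set.mem_ofPred_eq] at hp ⊢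
      obtain ⟨⟨h1, h3⟩, h4⟩ := hp
      rw [← h4, ← h1]
      linear_combination (-(a * e * p.1 ^ 2 * p.2 ^ 2)) * h2
    · intro p hp q hq hpq
      simp only [Finset.coe_filter, Finset.mem_filter, Finset.mem_univ, true_and,
        Set.mem_ofPred_eq] at hp hq
      exact Prod.ext hpq (hp.2.trans hq.2.symm)

lemma SS_bound (a b e f a' b' c' d' : F) (hne : ¬ (a = 0 ∧ b = 0 ∧ e = 0 ∧ f = 0)) :
    SS a b e f a' b' c' d' ^ 2 ≤ 4 * (Fintype.card F : ℤ) ^ 3 := by
  classical
  refine le_trans (SS_sq a b e f a' b' c' d') ?_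
  have h := card_kernel a b e f hne
  have h' : ((Finset.univ.filter fun p : F × F =>
        (a * p.1 + f * p.2) + (a * p.1 ^ 2 + e * p.2 ^ 2) ^ 2 = 0 ∧
        (b * p.2 + e * p.1) + (b * p.2 ^ 2 + f * p.1 ^ 2) ^ 2 = 0).card : ℤ)
        ≤ 4 * (Fintype.card F : ℤ) := by exact_mod_cast h
  calc _ ≤ (4 * (Fintype.card F : ℤ)) * (Fintype.card F : ℤ) ^ 2 := by
        refine mul_le_mul_of_nonneg_right h' (sq_nonneg _)
    _ = _ := by ring

open Classical in
lemma SS_lin (a' b' c' d' : F) :
    SS 0 0 0 0 a' b' c' d' =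
      (if a' + b' ^ 2 = 0 then (Fintype.card F : ℤ) else 0)
        * (if c' + d' ^ 2 = 0 then (Fintype.card F : ℤ) else 0) := by
  unfold SS Phi
  rw [← sum_psi_quad, ← sum_psi_quad, Finset.sum_mul_sum]
  refine Finset.sum_congr rfl fun x _ => Finset.sum_congr rfl fun y _ => ?_
  rw [← psi_add]
  congr 1
  ring

end Pool.H850Sq
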