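import Pool.Agent.H850R2.Sq.SetA

/-! Existence of good coefficients. -/

namespace Pool.H850Sq

set_option linter.unusedSectionVars false

open Finset

lemma two_pow_odd_mod (k : ℕ) (hk : Odd k) : 2 ^ k % 3 = 2 := by
  obtain ⟨m, rfl⟩ := hk
  induction m with
  | zero => norm_num
  | succ m ih =>
    have : 2 ^ (2 * (m + 1) + 1) = 4 * 2 ^ (2 * m + 1) := by ring
    rw [this, Nat.mul_mod, ih]

lemma two_pow_even_mod (k : ℕ) (hk : Even k) : 2 ^ k % 3 = 1 := by
  obtain ⟨m, rfl⟩ := hk
  induction m with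
  | zero => norm_num
  | succ m ih =>
    have : 2 ^ (m + 1 + (m + 1)) = 4 * 2 ^ (m + m) := by ring
    rw [this, Nat.mul_mod, ih]

lemma exists_noncube (F : Type*) [Field F] [Fintype F] (n : ℕ) (hn : Even n)
    (hcard : Fintype.card F = 2 ^ n) : ∃ g : F, ∀ x : F, x ^ 3 ≠ g := by
  classical
  by_contra hcon
  push Not at hcon
  have hsurj : Function.Surjective (fun x : F => x ^ 3) := fun g => hcon g
  have hinj : Function.Injective (fun x : F => x ^ 3) := Finite.injective_iff_surjective.mpr hsurj
  have h3 : 3 ∣ Fintype.card Fˣ := by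
    rw [Fintype.card_units, hcard]
    have h1 := two_pow_even_mod n hn
    have h2 : 1 ≤ 2 ^ n := Nat.one_le_two_pow
    omega
  obtain ⟨w, hw⟩ := exists_prime_orderOf_dvd_card 3 h3
  have hw3 : w ^ 3 = 1 := by rw [← hw]; exact pow_orderOf_eq_one w
  have h1 : (w : F) ^ 3 = (1 : F) ^ 3 := by
    have := congrArg (Units.val) hw3
    simpa using this
  have h4 : (w : F) = 1 := hinj h1
  have h5 : w = 1 := Units.ext h4
  rw [h5] at hw
  simp at hw

lemma is_cube (K : Type*) [Field K] [Fintype K] (k : ℕ) (hk : Odd k)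
    (hcard : Fintype.card K = 2 ^ k) (w : K) (hw : w ≠ 0) : ∃ v : K, v ^ 3 = w := by
  have h1 := two_pow_odd_mod k hk
  have h2 : 1 ≤ 2 ^ k := Nat.one_le_two_pow
  obtain ⟨e, he⟩ : ∃ e, 2 * (2 ^ k - 1) + 1 = 3 * e := by
    refine ⟨(2 * (2 ^ k - 1) + 1) / 3, ?_⟩
    omega
  refine ⟨w ^ e, ?_⟩
  rw [← pow_mul, mul_comm e 3, ← he, pow_succ, mul_comm 2, pow_mul]
  have h3 := FiniteField.pow_card_sub_one_eq_one w hw
  rw [hcard] at h3
  rw [h3]
  simp

theorem exists_good (F : Type*) [Field F] [Fintype F] [Algebra (ZMod 2) F] (k n : ℕ)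
    (hk : Odd k) (hn : Even n) (hkn : k ∣ n) (hfin : Module.finrank (ZMod 2) F = n) :
    ∃ c : Fin k → F, Good c := by
  classical
  have hk0 : k ≠ 0 := by
    rintro rfl
    simp at hk
  have hKfin : Module.finrank (ZMod 2) (GaloisField 2 k) = k := GaloisField.finrank 2 hk0
  obtain ⟨f⟩ : Nonempty (GaloisField 2 k →ₐ[ZMod 2] F) := by
    apply FiniteField.nonempty_algHom_of_finrank_dvd
    rw [hKfin, hfin]
    exact hkn
  have hF : Fintype.card F = 2 ^ n := by
    have hm : Module.Finite (ZMod 2) F := Module.Finite.of_finite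
    have := Module.card_eq_pow_finrank (K := ZMod 2) (V := F)
    rw [hfin] at this
    simpa using this
  have hmK : Module.Finite (ZMod 2) (GaloisField 2 k) := Module.Finite.of_finite
  letI : Fintype (GaloisField 2 k) := Fintype.ofFinite _
  have hK : Fintype.card (GaloisField 2 k) = 2 ^ k := by
    have := Module.card_eq_pow_finrank (K := ZMod 2) (V := GaloisField 2 k)
    rw [hKfin] at this
    simpa using this
  obtain ⟨g, hg⟩ := exists_noncube F n hn hF
  have hg0 : g ≠ 0 := by
    rintro rfl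
    exact hg 0 (by simp)
  let b := Module.finBasisOfFinrankEq (ZMod 2) (GaloisField 2 k) hKfin
  have hio : ∀ p : Fin k → ZMod 2, io (fun j => g * f (b j)) p = g * f (b.equivFun.symm p) := by
    intro p
    unfold io
    rw [Module.Basis.equivFun_symm_apply, map_sum, Finset.mul_sum]
    refine Finset.sum_congr rfl fun j _ => ?_
    rw [map_smul, mul_smul_comm]
  have hfinj : Function.Injective f := f.toRingHom.injective
  refine ⟨fun j => g * f (b j), ?_, ?_⟩
  · intro p hp
    rw [hio] at hp
    have h1 : f (b.equivFun.symm p) = 0 := by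
      rcases mul_eq_zero.mp hp with h | h
      · exact absurd h hg0
      · exact h
    have h2 : b.equivFun.symm p = 0 := hfinj (by rw [h1, map_zero])
    exact (LinearEquiv.map_eq_zero_iff _).mp h2
  · intro p r d hd hpr
    by_contra hp
    rw [hio, hio] at hpr
    set P := b.equivFun.symm p with hP
    set R := b.equivFun.symm r with hR
    have hP0 : P ≠ 0 := by
      intro h
      exact hp ((LinearEquiv.map_eq_zero_iff _).mp h)
    have hfP : f P ≠ 0 := by
      intro h
      exact hP0 (hfinj (by rw [h, map_zero]))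
    have h1 : g * f P ^ 2 * d ^ 3 = f R := by
      have : g * (g * f P ^ 2 * d ^ 3) = g * f R := by
        rw [← hpr]; ring
      exact mul_left_cancel₀ hg0 this
    have hR0 : R ≠ 0 := by
      intro h
      rw [h, map_zero] at h1
      have : g * f P ^ 2 * d ^ 3 ≠ 0 := by positivity
      exact this h1
    obtain ⟨v, hv⟩ := is_cube (GaloisField 2 k) k hk hK (R / P ^ 2)
      (div_ne_zero hR0 (pow_ne_zero 2 hP0))
    apply hg (f v / d)
    have h2 : f v ^ 3 = f R / f P ^ 2 := by
      rw [← map_pow, hv, map_div₀, map_pow]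
    rw [div_pow, h2, ← h1]
    field_simp

end Pool.H850Sq
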