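import Pool.Agent.H850R2.Sq.Char

/-! Equidistribution of the labels. -/

namespace Pool.H850Sq

set_option linter.unusedSectionVars false

open Finset

variable {F : Type*} [Field F] [Fintype F] [Algebra (ZMod 2) F] {k : ℕ}

/-- The combination of the coefficients. -/
def io (c : Fin k → F) (p : Fin k → ZMod 2) : F := ∑ j, p j • c j

lemma lam_io (c : Fin k → F) (p : Fin k → ZMod 2) (z : F) :
    lam (io c p * z) = ∑ j, p j * lam (c j * z) := by
  unfold io
  rw [Finset.sum_mul, map_sum]
  refine Finset.sum_congr rfl fun j _ => ?_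
  rw [smul_mul_assoc, map_smul, smul_eq_mul]

/-- The bilinear forms. -/
noncomputable def Bc (c : Fin k → F) (x y : F) (j : Fin k) : ZMod 2 := lam (c j * (x * y ^ 2))

/-- The labels. -/
noncomputable def Lab (c : Fin k → F) (d x y : F) (j : Fin k) : Fin 8 → ZMod 2 :=
  ![Bc c x x j, Bc c y y j, Bc c x y j, Bc c y x j, Bc c x d j, Bc c d x j, Bc c y d j, Bc c d y j]

lemma sum_lab (c : Fin k → F) (d x y : F) (u : Fin k → Fin 8 → ZMod 2) :
    ∑ j, ∑ i, u j i * Lab c d x y j i =
      lam (Phi (io c fun j => u j 0) (io c fun j => u j 1) (io c fun j => u j 2)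
        (io c fun j => u j 3) ((io c fun j => u j 5) * d) ((io c fun j => u j 4) * d ^ 2)
        ((io c fun j => u j 7) * d) ((io c fun j => u j 6) * d ^ 2) x y) := by
  unfold Phi
  have e0 : (io c fun j => u j 0) * x ^ 3 = (io c fun j => u j 0) * (x * x ^ 2) := by ring
  have e1 : (io c fun j => u j 1) * y ^ 3 = (io c fun j => u j 1) * (y * y ^ 2) := by ring
  have e5 : (io c fun j => u j 5) * d * x ^ 2 = (io c fun j => u j 5) * (d * x ^ 2) := by ring
  have e4 : (io c fun j => u j 4) * d ^ 2 * x = (io c fun j => u j 4) * (x * d ^ 2) := by ring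
  have e7 : (io c fun j => u j 7) * d * y ^ 2 = (io c fun j => u j 7) * (d * y ^ 2) := by ring
  have e6 : (io c fun j => u j 6) * d ^ 2 * y = (io c fun j => u j 6) * (y * d ^ 2) := by ring
  rw [e0, e1, e4, e5, e6, e7]
  simp only [map_add, lam_io, ← Finset.sum_add_distrib]
  refine Finset.sum_congr rfl fun j _ => ?_
  rw [Fin.sum_univ_eight]
  simp only [Lab, Bc]
  simp only [Matrix.cons_val]
  ring

lemma indicator_sum (v : Fin k → Fin 8 → ZMod 2) :
    ∑ u : Fin k → Fin 8 → ZMod 2, ∏ j, ∏ i, sg (u j i * v j i)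
      = if v = 0 then (2 : ℤ) ^ (8 * k) else 0 := by
  have h1 : ∏ j : Fin k, ∏ i : Fin 8, (∑ w : ZMod 2, sg (w * v j i)) =
      ∑ u : Fin k → Fin 8 → ZMod 2, ∏ j, ∏ i, sg (u j i * v j i) := by
    have h2 : ∀ j : Fin k, ∏ i : Fin 8, (∑ w : ZMod 2, sg (w * v j i))
        = ∑ w : Fin 8 → ZMod 2, ∏ i, sg (w i * v j i) := by
      intro j
      rw [Finset.prod_univ_sum, Fintype.piFinset_univ]
    simp_rw [h2]
    rw [Finset.prod_univ_sum, Fintype.piFinset_univ]
  rw [← h1]
  simp_rw [sum_sg_mul]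
  split_ifs with hv
  · subst hv
    simp [pow_mul]
  · have : ∃ j i, v j i ≠ 0 := by
      by_contra hcon
      push Not at hcon
      exact hv (funext fun j => funext fun i => hcon j i)
    obtain ⟨j, i, hji⟩ := this
    apply Finset.prod_eq_zero (Finset.mem_univ j)
    apply Finset.prod_eq_zero (Finset.mem_univ i)
    rw [if_neg hji]

/-- The sum attached to `u`. -/
noncomputable def SU (c : Fin k → F) (d : F) (u : Fin k → Fin 8 → ZMod 2) : ℤ :=
  SS (io c fun j => u j 0) (io c fun j => u j 1) (io c fun j => u j 2)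
        (io c fun j => u j 3) ((io c fun j => u j 5) * d) ((io c fun j => u j 4) * d ^ 2)
        ((io c fun j => u j 7) * d) ((io c fun j => u j 6) * d ^ 2)

lemma zmod_add_eq_zero {v t : Fin k → Fin 8 → ZMod 2} : v + t = 0 ↔ v = t := by
  constructor
  · intro h
    funext j i
    have := congrFun (congrFun h j) i
    simp only [Pi.add_apply, Pi.zero_apply] at this
    revert this
    generalize v j i = a
    generalize t j i = b
    revert a b; decide
  · intro h
    subst h
    funext j i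
    simp only [Pi.add_apply, Pi.zero_apply]
    generalize v j i = a
    revert a; decide

open Classical in
lemma count_eq (c : Fin k → F) (d : F) (t : Fin k → Fin 8 → ZMod 2) :
    (2 : ℤ) ^ (8 * k) * ((Finset.univ.filter fun p : F × F => Lab c d p.1 p.2 = t).card : ℤ)
      = ∑ u : Fin k → Fin 8 → ZMod 2, (∏ j, ∏ i, sg (u j i * t j i)) * SU c d u := by
  have h1 : (2 : ℤ) ^ (8 * k) *
      ((Finset.univ.filter fun p : F × F => Lab c d p.1 p.2 = t).card : ℤ)
      = ∑ x : F, ∑ y : F, ∑ u : Fin k → Fin 8 → ZMod 2,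
          ∏ j, ∏ i, sg (u j i * (Lab c d x y + t) j i) := by
    simp_rw [indicator_sum, zmod_add_eq_zero]
    rw [← Finset.sum_product' (s := Finset.univ) (t := Finset.univ)
      (f := fun x y => if Lab c d x y = t then (2 : ℤ) ^ (8 * k) else 0)]
    rw [Finset.univ_product_univ, ← Finset.sum_filter, Finset.sum_const, nsmul_eq_mul, mul_comm]
  rw [h1]
  have h2 : ∀ x y : F, ∀ u : Fin k → Fin 8 → ZMod 2,
      ∏ j, ∏ i, sg (u j i * (Lab c d x y + t) j i) =
        (∏ j, ∏ i, sg (u j i * t j i)) *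
        psi (Phi (io c fun j => u j 0) (io c fun j => u j 1) (io c fun j => u j 2)
        (io c fun j => u j 3) ((io c fun j => u j 5) * d) ((io c fun j => u j 4) * d ^ 2)
        ((io c fun j => u j 7) * d) ((io c fun j => u j 6) * d ^ 2) x y) := by
    intro x y u
    have h3 : ∀ j i, sg (u j i * (Lab c d x y + t) j i) =
        sg (u j i * t j i) * sg (u j i * Lab c d x y j i) := by
      intro j i
      rw [← sg_add]
      congr 1
      simp only [Pi.add_apply]
      ring
    simp_rw [h3, Finset.prod_mul_distrib]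
    congr 1
    unfold psi
    rw [← sum_lab, sg_sum]
    refine Finset.prod_congr rfl fun j _ => ?_
    rw [sg_sum]
  simp_rw [h2]
  calc _ = ∑ x : F, ∑ u : Fin k → Fin 8 → ZMod 2, ∑ y : F, (∏ j, ∏ i, sg (u j i * t j i)) *
        psi (Phi (io c fun j => u j 0) (io c fun j => u j 1) (io c fun j => u j 2)
        (io c fun j => u j 3) ((io c fun j => u j 5) * d) ((io c fun j => u j 4) * d ^ 2)
        ((io c fun j => u j 7) * d) ((io c fun j => u j 6) * d ^ 2) x y) :=
        Finset.sum_congr rfl fun x _ => Finset.sum_comm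
    _ = _ := by
        rw [Finset.sum_comm]
        refine Finset.sum_congr rfl fun u _ => ?_
        unfold SU SS
        rw [Finset.mul_sum]
        refine Finset.sum_congr rfl fun x _ => ?_
        rw [Finset.mul_sum]

/-- The conditions on the coefficients. -/
def Good (c : Fin k → F) : Prop :=
  (∀ p : Fin k → ZMod 2, io c p = 0 → p = 0) ∧
  (∀ p r : Fin k → ZMod 2, ∀ d : F, d ≠ 0 → io c p ^ 2 * d ^ 3 = io c r → p = 0)

lemma io_zero (c : Fin k → F) : io c 0 = 0 := by
  unfold io; simp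

lemma SU_zero (c : Fin k → F) (d : F) : SU c d 0 = (Fintype.card F : ℤ) ^ 2 := by
  unfold SU
  have h : ∀ i : Fin 8, (io c fun j => (0 : Fin k → Fin 8 → ZMod 2) j i) = 0 := by
    intro i
    exact io_zero c
  simp only [h]
  classical
  rw [zero_mul, zero_mul, SS_lin]
  simp
  ring

lemma SU_bound (c : Fin k → F) (hc : Good c) (d : F) (hd : d ≠ 0) (u : Fin k → Fin 8 → ZMod 2)
    (hu : u ≠ 0) : SU c d u ^ 2 ≤ 4 * (Fintype.card F : ℤ) ^ 3 := by
  classical
  have hcp : CharP F 2 := char_two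
  by_cases h : (io c fun j => u j 0) = 0 ∧ (io c fun j => u j 1) = 0 ∧ (io c fun j => u j 2) = 0 ∧
      (io c fun j => u j 3) = 0
  · obtain ⟨h0, h1, h2, h3⟩ := h
    unfold SU
    rw [h0, h1, h2, h3, SS_lin]
    have aux : ∀ p r : Fin k → ZMod 2, io c r * d + (io c p * d ^ 2) ^ 2 = 0 → p = 0 ∧ r = 0 := by
      intro p r hpr
      have e1 : io c r = io c p ^ 2 * d ^ 3 := by
        have e2 : io c r * d = (io c p * d ^ 2) ^ 2 := by
          exact CharTwo.add_eq_zero.mp hpr
        have e3 : (io c p * d ^ 2) ^ 2 = (io c p ^ 2 * d ^ 3) * d := by ring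
        rw [e3] at e2
        exact mul_right_cancel₀ hd e2
      have hp := hc.2 p r d hd e1.symm
      refine ⟨hp, ?_⟩
      apply hc.1
      rw [e1, hp, io_zero]
      ring
    have hpos : (0 : ℤ) ≤ 4 * (Fintype.card F : ℤ) ^ 3 := by positivity
    by_cases g1 : (io c fun j => u j 5) * d + ((io c fun j => u j 4) * d ^ 2) ^ 2 = 0
    · by_cases g2 : (io c fun j => u j 7) * d + ((io c fun j => u j 6) * d ^ 2) ^ 2 = 0
      · exfalso
        apply hu
        have a0 := hc.1 _ h0
        have a1 := hc.1 _ h1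
        have a2 := hc.1 _ h2
        have a3 := hc.1 _ h3
        obtain ⟨a4, a5⟩ := aux _ _ g1
        obtain ⟨a6, a7⟩ := aux _ _ g2
        funext j i
        fin_cases i
        · exact congrFun a0 j
        · exact congrFun a1 j
        · exact congrFun a2 j
        · exact congrFun a3 j
        · exact congrFun a4 j
        · exact congrFun a5 j
        · exact congrFun a6 j
        · exact congrFun a7 j
      · rw [if_neg g2, mul_zero]
        simp
    · rw [if_neg g1, zero_mul]
      simp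
  · unfold SU
    apply SS_bound
    rintro ⟨h0, h1, h2, h3⟩
    exact h ⟨h0, h1, h2, h3⟩

open Classical in
/-- Equidistribution of the labels. -/
theorem equi (c : Fin k → F) (hc : Good c) (hN : 2 ^ (16 * k + 4) ≤ Fintype.card F)
    (d : F) (hd : d ≠ 0) (t : Fin k → Fin 8 → ZMod 2) :
    2 * |(2 : ℤ) ^ (8 * k) *
      ((Finset.univ.filter fun p : F × F => Lab c d p.1 p.2 = t).card : ℤ)
        - (Fintype.card F : ℤ) ^ 2| ≤ (Fintype.card F : ℤ) ^ 2 := by
  set N : ℤ := (Fintype.card F : ℤ) with hNdef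
  have hN' : (2 : ℤ) ^ (16 * k + 4) ≤ N := by
    rw [hNdef]; exact_mod_cast hN
  have hN0 : 0 ≤ N := by rw [hNdef]; positivity
  rw [count_eq]
  have h1 : ∑ u : Fin k → Fin 8 → ZMod 2, (∏ j, ∏ i, sg (u j i * t j i)) * SU c d u
      - N ^ 2 = ∑ u ∈ (Finset.univ.erase (0 : Fin k → Fin 8 → ZMod 2)),
        (∏ j, ∏ i, sg (u j i * t j i)) * SU c d u := by
    rw [← Finset.add_sum_erase Finset.univ _ (Finset.mem_univ (0 : Fin k → Fin 8 → ZMod 2)),
      SU_zero]
    simp only [sg_zero, Pi.zero_apply, zero_mul, Finset.prod_const_one, one_mul]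
    rw [← hNdef]
    ring
  rw [h1]
  have habs : ∀ u : Fin k → Fin 8 → ZMod 2, |∏ j, ∏ i, sg (u j i * t j i)| = 1 := by
    intro u
    rw [Finset.abs_prod]
    apply Finset.prod_eq_one
    intro j _
    rw [Finset.abs_prod]
    apply Finset.prod_eq_one
    intro i _
    exact sg_abs _
  have hterm : ∀ u ∈ (Finset.univ.erase (0 : Fin k → Fin 8 → ZMod 2)),
      2 * 2 ^ (8 * k) * |(∏ j, ∏ i, sg (u j i * t j i)) * SU c d u| ≤ N ^ 2 := by
    intro u hu
    rw [abs_mul, habs u, one_mul]
    have hb := SU_bound c hc d hd u (Finset.ne_of_mem_erase hu)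
    rw [← hNdef] at hb
    have h2 : (2 * 2 ^ (8 * k) * |SU c d u|) ^ 2 ≤ (N ^ 2) ^ 2 := by
      calc (2 * 2 ^ (8 * k) * |SU c d u|) ^ 2 = 4 * 2 ^ (16 * k) * SU c d u ^ 2 := by
            rw [mul_pow, mul_pow, sq_abs]
            have : ((2 : ℤ) ^ (8 * k)) ^ 2 = 2 ^ (16 * k) := by
              rw [← pow_mul]; congr 1; ring
            rw [this]; ring
        _ ≤ 4 * 2 ^ (16 * k) * (4 * N ^ 3) := by
            apply mul_le_mul_of_nonneg_left hb; positivity
        _ = 2 ^ (16 * k + 4) * N ^ 3 := by rw [pow_add]; ring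
        _ ≤ N * N ^ 3 := by
            apply mul_le_mul_of_nonneg_right hN'; positivity
        _ = (N ^ 2) ^ 2 := by ring
    exact (pow_le_pow_iff_left₀ (by positivity) (by positivity) two_ne_zero).mp h2
  have hsum : 2 * 2 ^ (8 * k) * ∑ u ∈ (Finset.univ.erase (0 : Fin k → Fin 8 → ZMod 2)),
      |(∏ j, ∏ i, sg (u j i * t j i)) * SU c d u| ≤ 2 ^ (8 * k) * N ^ 2 := by
    rw [Finset.mul_sum]
    calc _ ≤ ∑ u ∈ (Finset.univ.erase (0 : Fin k → Fin 8 → ZMod 2)), N ^ 2 :=
          Finset.sum_le_sum hterm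
      _ = ((Finset.univ.erase (0 : Fin k → Fin 8 → ZMod 2)).card : ℤ) * N ^ 2 := by
          rw [Finset.sum_const, nsmul_eq_mul]
      _ ≤ 2 ^ (8 * k) * N ^ 2 := by
          apply mul_le_mul_of_nonneg_right _ (by positivity)
          have hc1 : (Finset.univ.erase (0 : Fin k → Fin 8 → ZMod 2)).card ≤ 2 ^ (8 * k) := by
            refine le_trans (Finset.card_erase_le) ?_
            rw [Finset.card_univ]
            simp [pow_mul]
          exact_mod_cast hc1
  have hle := Finset.abs_sum_le_sum_abs (fun u : Fin k → Fin 8 → ZMod 2 =>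
    (∏ j, ∏ i, sg (u j i * t j i)) * SU c d u) (Finset.univ.erase (0 : Fin k → Fin 8 → ZMod 2))
  have hp : (0 : ℤ) < 2 ^ (8 * k) := by positivity
  have h3 : 2 ^ (8 * k) * (2 * ∑ u ∈ (Finset.univ.erase (0 : Fin k → Fin 8 → ZMod 2)),
      |(∏ j, ∏ i, sg (u j i * t j i)) * SU c d u|) ≤ 2 ^ (8 * k) * N ^ 2 := by
    linarith
  have h4 := le_of_mul_le_mul_left h3 hp
  linarith

end Pool.H850Sq
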