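import Pool.Agent.H850R2.Sq.Lab

/-! The set `A` and the two counts. -/

namespace Pool.H850Sq

set_option linter.unusedSectionVars false

open Finset

variable {F : Type*} [Field F] [Fintype F] [Algebra (ZMod 2) F] {k : ℕ}

/-- not all equal -/
def nae (a b g : ZMod 2) : ZMod 2 := a + b + g + a * b + a * g + b * g

/-- condition at the point `(x,y)` -/
def P00 (w : Fin 8 → ZMod 2) : Prop := w 2 = nae (w 0) (w 1) (w 0 + w 1 + w 2 + w 3)

/-- condition at the point `(x,y+d)` -/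
def P01 (s : ZMod 2) (w : Fin 8 → ZMod 2) : Prop :=
  w 2 + w 4 = nae (w 0) (w 1 + s + w 6 + w 7)
    (w 0 + w 1 + w 2 + w 3 + s + w 4 + w 5 + w 6 + w 7)

/-- condition at the point `(x+d,y)` -/
def P10 (s : ZMod 2) (w : Fin 8 → ZMod 2) : Prop :=
  w 2 + w 7 = nae (w 0 + s + w 4 + w 5) (w 1)
    (w 0 + w 1 + w 2 + w 3 + s + w 4 + w 5 + w 6 + w 7)

/-- condition at the point `(x+d,y+d)` -/
def P11 (s : ZMod 2) (w : Fin 8 → ZMod 2) : Prop :=
  w 2 + w 4 + w 7 + s = nae (w 0 + s + w 4 + w 5) (w 1 + s + w 6 + w 7)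
    (w 0 + w 1 + w 2 + w 3)

instance (w : Fin 8 → ZMod 2) : Decidable (P00 w) := by unfold P00; infer_instance
instance (s : ZMod 2) (w : Fin 8 → ZMod 2) : Decidable (P01 s w) := by unfold P01; infer_instance
instance (s : ZMod 2) (w : Fin 8 → ZMod 2) : Decidable (P10 s w) := by unfold P10; infer_instance
instance (s : ZMod 2) (w : Fin 8 → ZMod 2) : Decidable (P11 s w) := by unfold P11; infer_instance

lemma card_P00 : (Finset.univ.filter fun w : Fin 8 → ZMod 2 => P00 w).card = 128 := by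
  decide +kernel

lemma card_P4 (s : ZMod 2) : (Finset.univ.filter fun w : Fin 8 → ZMod 2 =>
    P00 w ∧ P01 s w ∧ P10 s w ∧ P11 s w).card = 8 := by
  revert s
  decide +kernel

open Classical in
/-- The set. -/
noncomputable def SetA (c : Fin k → F) : Finset (F × F) :=
  Finset.univ.filter fun p => ∀ j,
    Bc c p.1 p.2 j = nae (Bc c p.1 p.1 j) (Bc c p.2 p.2 j) (Bc c (p.1 + p.2) (p.1 + p.2) j)

lemma Bc_add_left (c : Fin k → F) (x x' y : F) (j : Fin k) :
    Bc c (x + x') y j = Bc c x y j + Bc c x' y j := by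
  unfold Bc
  rw [← map_add]
  congr 1
  ring

lemma Bc_add_right (c : Fin k → F) (x y y' : F) (j : Fin k) :
    Bc c x (y + y') j = Bc c x y j + Bc c x y' j := by
  have hcp : CharP F 2 := char_two
  unfold Bc
  rw [← map_add, CharTwo.add_sq]
  congr 1
  ring

lemma mem_SetA (c : Fin k → F) (x y : F) : (x, y) ∈ SetA c ↔ ∀ j,
    Bc c x y j = nae (Bc c x x j) (Bc c y y j) (Bc c (x + y) (x + y) j) := by
  classical
  unfold SetA
  simp

lemma zself (a : ZMod 2) : a + a = 0 := by revert a; decide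

lemma pt00 (c : Fin k → F) (d x y : F) :
    (x, y) ∈ SetA c ↔ ∀ j, P00 (Lab c d x y j) := by
  rw [mem_SetA]
  refine forall_congr' fun j => ?_
  unfold P00 Lab
  simp only [Matrix.cons_val, Bc_add_left, Bc_add_right]
  rw [show Bc c x x j + Bc c y x j + (Bc c x y j + Bc c y y j)
    = Bc c x x j + Bc c y y j + Bc c x y j + Bc c y x j by ring]

lemma pt01 (c : Fin k → F) (d x y : F) :
    (x, y + d) ∈ SetA c ↔ ∀ j, P01 (Bc c d d j) (Lab c d x y j) := by
  rw [mem_SetA]
  refine forall_congr' fun j => ?_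
  unfold P01 Lab
  simp only [Matrix.cons_val, Bc_add_left, Bc_add_right]
  apply iff_of_eq
  congr 2
  · ring
  · ring

lemma pt10 (c : Fin k → F) (d x y : F) :
    (x + d, y) ∈ SetA c ↔ ∀ j, P10 (Bc c d d j) (Lab c d x y j) := by
  rw [mem_SetA]
  refine forall_congr' fun j => ?_
  unfold P10 Lab
  simp only [Matrix.cons_val, Bc_add_left, Bc_add_right]
  apply iff_of_eq
  congr 2
  · ring
  · ring

lemma pt11 (c : Fin k → F) (d x y : F) :
    (x + d, y + d) ∈ SetA c ↔ ∀ j, P11 (Bc c d d j) (Lab c d x y j) := by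
  rw [mem_SetA]
  refine forall_congr' fun j => ?_
  unfold P11 Lab
  have hxy : x + d + (y + d) = x + y := by
    have hcp : CharP F 2 := char_two
    have : x + d + (y + d) = x + y + (d + d) := by ring
    rw [this, CharTwo.add_self_eq_zero, add_zero]
  rw [hxy]
  simp only [Matrix.cons_val, Bc_add_left, Bc_add_right]
  apply iff_of_eq
  congr 1
  · ring
  · congr 1
    · ring
    · ring
    · ring

open Classical in
/-- The number of squares. -/
noncomputable def QF (A : Finset (F × F)) (d : F) : ℕ :=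
  (Finset.univ.filter fun p : F × F => (p.1, p.2) ∈ A ∧ (p.1, p.2 + d) ∈ A ∧
    (p.1 + d, p.2) ∈ A ∧ (p.1 + d, p.2 + d) ∈ A).card

open Classical in
lemma card_pi (g : Fin k → Finset (Fin 8 → ZMod 2)) (m : ℕ) (hg : ∀ j, (g j).card = m) :
    (Finset.univ.filter fun t : Fin k → Fin 8 → ZMod 2 => ∀ j, t j ∈ g j).card = m ^ k := by
  have : (Finset.univ.filter fun t : Fin k → Fin 8 → ZMod 2 => ∀ j, t j ∈ g j)
      = Fintype.piFinset g := by
    ext t; simp [Fintype.mem_piFinset]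
  rw [this, Fintype.card_piFinset]
  simp [hg]

open Classical in
lemma card_fib (c : Fin k → F) (d : F) (T : Finset (Fin k → Fin 8 → ZMod 2))
    (S : Finset (F × F)) (hS : ∀ p : F × F, p ∈ S ↔ Lab c d p.1 p.2 ∈ T) :
    (S.card : ℤ) = ∑ t ∈ T,
      ((Finset.univ.filter fun p : F × F => Lab c d p.1 p.2 = t).card : ℤ) := by
  have h := Finset.card_eq_sum_card_fiberwise (f := fun p : F × F => Lab c d p.1 p.2)
    (s := S) (t := T) (fun p hp => (hS p).mp hp)
  rw [h]
  push_cast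
  refine Finset.sum_congr rfl fun t ht => ?_
  congr 2
  ext p
  simp only [Finset.mem_filter, Finset.mem_univ, true_and]
  constructor
  · exact fun h => h.2
  · intro h
    refine ⟨?_, h⟩
    rw [hS p, h]
    exact ht

/-- Size of the set. -/
theorem card_SetA (c : Fin k → F) (hc : Good c) (hN : 2 ^ (16 * k + 4) ≤ Fintype.card F) :
    (Fintype.card F : ℤ) ^ 2 ≤ 2 ^ (k + 1) * ((SetA c).card : ℤ) := by
  classical
  set g : Fin k → Finset (Fin 8 → ZMod 2) := fun _ => Finset.univ.filter fun w => P00 w with hg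
  set T := (Finset.univ.filter fun t : Fin k → Fin 8 → ZMod 2 => ∀ j, t j ∈ g j) with hT
  have h1 := card_fib c 1 T (SetA c) (by
    intro p
    rw [show p = (p.1, p.2) from rfl, pt00 c 1 p.1 p.2, hT]
    simp [hg])
  have h2 : (T.card : ℤ) = 128 ^ k := by
    rw [hT, card_pi g 128 (fun j => card_P00)]
    norm_num
  have h3 : ∀ t ∈ T, (Fintype.card F : ℤ) ^ 2 ≤ 2 * 2 ^ (8 * k) *
      ((Finset.univ.filter fun p : F × F => Lab c 1 p.1 p.2 = t).card : ℤ) := by
    intro t _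
    have := equi c hc hN 1 one_ne_zero t
    have h4 := neg_abs_le ((2 : ℤ) ^ (8 * k) *
      ((Finset.univ.filter fun p : F × F => Lab c 1 p.1 p.2 = t).card : ℤ)
        - (Fintype.card F : ℤ) ^ 2)
    linarith
  have h5 := Finset.sum_le_sum h3
  rw [Finset.sum_const, nsmul_eq_mul, h2, ← Finset.mul_sum, ← h1] at h5
  have h6 : (2 : ℤ) ^ (8 * k) = 128 ^ k * 2 ^ k := by
    rw [← mul_pow, pow_mul]; norm_num
  rw [h6] at h5
  have hp : (0 : ℤ) < 128 ^ k := by positivity
  have h7 : (128 : ℤ) ^ k * (Fintype.card F : ℤ) ^ 2 ≤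
      128 ^ k * (2 ^ (k + 1) * ((SetA c).card : ℤ)) := by
    calc _ ≤ _ := h5
      _ = _ := by ring
  exact le_of_mul_le_mul_left h7 hp

/-- Few squares for every difference. -/
theorem QF_SetA (c : Fin k → F) (hc : Good c) (hN : 2 ^ (16 * k + 4) ≤ Fintype.card F)
    (d : F) (hd : d ≠ 0) :
    2 * 2 ^ (5 * k) * ((QF (SetA c) d : ℕ) : ℤ) ≤ 3 * (Fintype.card F : ℤ) ^ 2 := by
  classical
  set g : Fin k → Finset (Fin 8 → ZMod 2) := fun j => Finset.univ.filter fun w =>
    P00 w ∧ P01 (Bc c d d j) w ∧ P10 (Bc c d d j) w ∧ P11 (Bc c d d j) w with hg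
  set T := (Finset.univ.filter fun t : Fin k → Fin 8 → ZMod 2 => ∀ j, t j ∈ g j) with hT
  have h1 := card_fib c d T (Finset.univ.filter fun p : F × F =>
    (p.1, p.2) ∈ SetA c ∧ (p.1, p.2 + d) ∈ SetA c ∧
    (p.1 + d, p.2) ∈ SetA c ∧ (p.1 + d, p.2 + d) ∈ SetA c) (by
    intro p
    rw [Finset.mem_filter, pt00 c d p.1 p.2, pt01, pt10, pt11, hT]
    simp only [hg, Finset.mem_univ, true_and, Finset.mem_filter]
    constructor
    · rintro ⟨a, b, e, f⟩ j
      exact ⟨a j, b j, e j, f j⟩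
    · intro h
      exact ⟨fun j => (h j).1, fun j => (h j).2.1, fun j => (h j).2.2.1, fun j => (h j).2.2.2⟩)
  have h2 : (T.card : ℤ) = 8 ^ k := by
    rw [hT, card_pi g 8 (fun j => card_P4 _)]
    norm_num
  have h3 : ∀ t ∈ T, 2 * 2 ^ (8 * k) *
      ((Finset.univ.filter fun p : F × F => Lab c d p.1 p.2 = t).card : ℤ)
      ≤ 3 * (Fintype.card F : ℤ) ^ 2 := by
    intro t _
    have := equi c hc hN d hd t
    have h4 := le_abs_self ((2 : ℤ) ^ (8 * k) *
      ((Finset.univ.filter fun p : F × F => Lab c d p.1 p.2 = t).card : ℤ)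
        - (Fintype.card F : ℤ) ^ 2)
    linarith
  have h5 := Finset.sum_le_sum h3
  rw [Finset.sum_const, nsmul_eq_mul, h2, ← Finset.mul_sum, ← h1] at h5
  have h6 : (2 : ℤ) ^ (8 * k) = 8 ^ k * 2 ^ (5 * k) := by
    have : (8 : ℤ) ^ k = 2 ^ (3 * k) := by rw [pow_mul]; norm_num
    rw [this, ← pow_add]; congr 1; ring
  rw [h6] at h5
  have hp : (0 : ℤ) < 8 ^ k := by positivity
  have h7 : (8 : ℤ) ^ k * (2 * 2 ^ (5 * k) * ((QF (SetA c) d : ℕ) : ℤ)) ≤
      8 ^ k * (3 * (Fintype.card F : ℤ) ^ 2) := by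
    calc _ = _ := by unfold QF; ring
      _ ≤ _ := h5
  exact le_of_mul_le_mul_left h7 hp

end Pool.H850Sq
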